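import Pool.Agent.H976R3.Kiss.Big

/-!
Exponentially large jammed kissing configurations exist in all dimensions `2 ^ m` with `m ≥ 20`.

The configurations are the sign vectors of binary linear codes of minimal distance a quarter of the
length which contain many permuted copies of the second order Reed-Muller code.
-/

set_option autoImplicit false

namespace Pool.Agent.Results.MP_585e0c_gt.Exponential

open Pool.Agent.H976R3.Kiss

/-- A kissing configuration: a finite set of unit vectors of the Euclidean space of dimension `n`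
with inner products of distinct members at most one half. -/
def IsKissing {n : ℕ} (C : Finset (EuclideanSpace ℝ (Fin n))) : Prop :=
  (∀ x ∈ C, ‖x‖ = 1) ∧ ∀ x ∈ C, ∀ y ∈ C, x ≠ y → inner ℝ x y ≤ (1 / 2 : ℝ)

/-- The configuration `C` is jammed: for every continuous motion of its points on the unit sphere
during the time interval from zero to one, starting at `C` and keeping the inner products of
distinct points at most one half, the configuration at every time is the image of `C` under an
orthogonal map. -/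
def IsJammed {n : ℕ} (C : Finset (EuclideanSpace ℝ (Fin n))) : Prop :=
  ∀ γ : C → unitInterval → EuclideanSpace ℝ (Fin n),
    (∀ x, Continuous (γ x)) →
    (∀ x, γ x 0 = (x : EuclideanSpace ℝ (Fin n))) →
    (∀ x t, ‖γ x t‖ = 1) →
    (∀ x y, x ≠ y → ∀ t, inner ℝ (γ x t) (γ y t) ≤ (1 / 2 : ℝ)) →
    ∀ t, ∃ A : EuclideanSpace ℝ (Fin n) ≃ₗᵢ[ℝ] EuclideanSpace ℝ (Fin n),
      ∀ x : C, γ x t = A (x : EuclideanSpace ℝ (Fin n))

theorem pow_ineq (m : ℕ) (hm : 20 ≤ m) : 1152 * (1 + m * m) ≤ 2 ^ m := by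
  induction m, hm using Nat.le_induction with
  | base => norm_num
  | succ m hm ih =>
    rw [pow_succ]
    nlinarith

/-- There is a constant `c > 1` such that for all `m ≥ 20` there is a jammed kissing configuration
with at least `c ^ n` points in the Euclidean space of dimension `n = 2 ^ m`. -/
theorem result : ∃ c : ℝ, 1 < c ∧ ∀ m : ℕ, 20 ≤ m →
    ∃ C : Finset (EuclideanSpace ℝ (Fin (2 ^ m))),
      IsKissing C ∧ IsJammed C ∧ c ^ (2 ^ m) ≤ (C.card : ℝ) := by
  classical
  refine ⟨Real.exp (1 / 1152), Real.one_lt_exp_iff.mpr (by norm_num), fun m hm => ?_⟩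
  obtain ⟨C, hC, hbig⟩ := exists_big (m := m) (by omega)
  have hcardeq : Fintype.card (Fin (2 ^ m)) = Fintype.card (Pt m) := by
    rw [card_pt, Fintype.card_fin]
  let e : Fin (2 ^ m) ≃ Pt m := Fintype.equivOfCardEq hcardeq
  set D := pull e C with hD
  have hne : Nonempty (Fin (2 ^ m)) := ⟨⟨0, by positivity⟩⟩
  have hrig : RigC D := hC.2.2.pull e
  have hmind : ∀ d ∈ D, d ≠ 0 → 2 ^ m ≤ 4 * wt d := by
    intro d hd hne
    obtain ⟨c, hc, rfl⟩ := (mem_pull _ _ _).mp hd
    rw [wt_comp]
    refine hC.2.1 c hc ?_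
    rintro rfl
    exact hne rfl
  have hinf := infJammed_of_rigC D hrig
  have hn : (0 : ℝ) < (2 : ℝ) ^ m := by positivity
  have hinner : ∀ c d : D, c ≠ d → inner ℝ (fam D c) (fam D d) ≤ (1 / 2 : ℝ) := by
    intro c d hcd
    unfold fam
    rw [inner_vec_vec, Fintype.card_fin]
    push_cast
    rw [div_le_iff₀ hn]
    have h1 := hmind (c + d : Fin (2 ^ m) → ZMod 2) (D.add_mem c.2 d.2) (by
      intro h0
      apply hcd
      have := word_add_add (c : Fin (2 ^ m) → ZMod 2) d
      rw [h0, zero_add] at this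
      exact (Subtype.ext this).symm)
    have h2 : (2 : ℝ) ^ m ≤ 4 * wt (c + d : Fin (2 ^ m) → ZMod 2) := by exact_mod_cast h1
    linarith
  have hnorm : ∀ c : D, ‖fam D c‖ = 1 := fun c => norm_vec _
  have hinj : Function.Injective (fam D) := by
    intro c d h
    by_contra hcd
    have h1 := hinner c d hcd
    rw [h, real_inner_self_eq_norm_sq, hnorm] at h1
    norm_num at h1
  refine ⟨Finset.univ.image (fam D), ⟨?_, ?_⟩, ?_, ?_⟩
  · intro x hx
    obtain ⟨c, _, rfl⟩ := Finset.mem_image.mp hx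
    exact hnorm c
  · intro x hx y hy hxy
    obtain ⟨c, _, rfl⟩ := Finset.mem_image.mp hx
    obtain ⟨d, _, rfl⟩ := Finset.mem_image.mp hy
    exact hinner c d (fun h => hxy (by rw [h]))
  · intro γ hγ h0 h1 h2 t
    have hmem : ∀ c : D, fam D c ∈ Finset.univ.image (fam D) := fun c =>
      Finset.mem_image_of_mem _ (Finset.mem_univ c)
    obtain ⟨g, hg⟩ := jammed_of_infJammed (fam D) (1 / 2) hnorm hinf
      (fun c => γ ⟨fam D c, hmem c⟩) (fun c => hγ _) (fun c => h0 _) (fun c => h1 _)
      (fun c d hcd t => h2 _ _ (fun h => hcd (hinj (congrArg Subtype.val h))) t) t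
    refine ⟨g, fun x => ?_⟩
    obtain ⟨x, hx⟩ := x
    obtain ⟨c, _, rfl⟩ := Finset.mem_image.mp hx
    exact hg c
  · rw [Finset.card_image_of_injective _ hinj, Finset.card_univ, ← Nat.card_eq_fintype_card]
    have hcardD : Nat.card D = Nat.card C := by
      refine Nat.card_congr (Equiv.symm ?_)
      refine Equiv.ofBijective (fun c : C => (⟨(c : Pt m → ZMod 2) ∘ e,
        (mem_pull _ _ _).mpr ⟨c, c.2, rfl⟩⟩ : D)) ⟨?_, ?_⟩
      · intro c d h
        have h3 := congrArg Subtype.val h
        ext x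
        have := congrFun h3 (e.symm x)
        simpa using this
      · rintro ⟨d, hd⟩
        obtain ⟨c, hc, rfl⟩ := (mem_pull _ _ _).mp hd
        exact ⟨⟨c, hc⟩, rfl⟩
    rw [hcardD, ← Real.exp_nat_mul]
    have h3 : (Nat.card (RM2 m) : ℝ) ≤ Real.exp ((2 ^ m : ℝ) / 1152) := by
      have h4 : (Nat.card (RM2 m) : ℝ) ≤ (2 : ℝ) ^ (1 + m * m) := by exact_mod_cast card_RM2
      have h5 : (2 : ℝ) ^ (1 + m * m) ≤ (Real.exp 1) ^ (1 + m * m) := by
        refine pow_le_pow_left₀ (by norm_num) ?_ _
        have := Real.add_one_le_exp 1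
        linarith
      have h6 : (Real.exp 1) ^ (1 + m * m) ≤ Real.exp ((2 ^ m : ℝ) / 1152) := by
        rw [← Real.exp_nat_mul]
        apply Real.exp_le_exp.mpr
        rw [mul_one, le_div_iff₀ (by norm_num)]
        have h7 := pow_ineq m hm
        have h8 : (1152 * (1 + m * m) : ℝ) ≤ 2 ^ m := by exact_mod_cast h7
        push_cast
        linarith
      exact h4.trans (h5.trans h6)
    have h4 : Real.exp ((2 ^ m : ℝ) / 576) = Real.exp ((2 ^ m : ℝ) / 1152) *
        Real.exp ((2 ^ m : ℝ) / 1152) := by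
      rw [← Real.exp_add]; congr 1; ring
    rw [h4] at hbig
    have h5 : (0 : ℝ) < Real.exp ((2 ^ m : ℝ) / 1152) := Real.exp_pos _
    have h6 : Real.exp ((2 ^ m : ℝ) / 1152) * Real.exp ((2 ^ m : ℝ) / 1152) ≤
        (Nat.card C : ℝ) * Real.exp ((2 ^ m : ℝ) / 1152) :=
      hbig.trans (mul_le_mul_of_nonneg_left h3 (Nat.cast_nonneg _))
    have h7 := le_of_mul_le_mul_right h6 h5
    refine le_trans (le_of_eq ?_) h7
    congr 1
    push_cast
    ring

end Pool.Agent.Results.MP_585e0c_gt.Exponential
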